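import Mathlib

namespace Pool.Agent.H.MP_a9ea17_co

open Finset

/-- `v` is `± z` modulo `t`, with small explicit multiples. -/
def Cg (t v z : ℤ) : Prop :=
  v = z ∨ v = -z ∨ v = t + z ∨ v = t - z

/-- `v` is visibly not divisible by `t`. -/
def Nz (t v : ℤ) : Prop := -t < v ∧ v < 2 * t ∧ v ≠ 0 ∧ v ≠ t

/-- The integer form of the required property. -/
structure Good (k : ℕ) (X : ℕ → ℤ) : Prop where
  wrap : X k = X 0
  nz : ∀ i, i < k → Nz (4 * k + 1) (X i) ∧ Nz (4 * k + 1) (X i + X (i + 1))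
  cov : ∀ z : ℕ, 1 ≤ z → z ≤ 2 * k →
    ∃ i, i < k ∧ (Cg (4 * k + 1) (X i) z ∨ Cg (4 * k + 1) (X i + X (i + 1)) z)
  unit : ∃ c d : ℤ, c * (∑ i ∈ range k, X i) + d * (4 * k + 1) = 1

def zig (a b : ℤ) (i : ℕ) : ℤ := (if i % 2 = 0 then a else b) + ((i / 2 : ℕ) : ℤ)

lemma zig_even (a b : ℤ) (j : ℕ) : zig a b (2 * j) = a + j := by
  unfold zig; rw [if_pos (by omega)]; congr 1; omega

lemma zig_odd (a b : ℤ) (j : ℕ) : zig a b (2 * j + 1) = b + j := by
  unfold zig; rw [if_neg (by omega)]; congr 1; omega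

lemma zig_add (a b : ℤ) (i : ℕ) : zig a b i + zig a b (i + 1) = a + b + i := by
  unfold zig; split_ifs <;> omega

lemma zig_cases (a b : ℤ) (i : ℕ) :
    ∃ j : ℕ, (i = 2 * j ∧ zig a b i = a + j) ∨ (i = 2 * j + 1 ∧ zig a b i = b + j) := by
  rcases Nat.even_or_odd' i with ⟨j, rfl | rfl⟩
  · exact ⟨j, Or.inl ⟨rfl, zig_even _ _ _⟩⟩
  · exact ⟨j, Or.inr ⟨rfl, zig_odd _ _ _⟩⟩

lemma sum_even (a b : ℤ) (j : ℕ) :
    ∑ i ∈ range (2 * j), zig a b i = j * (a + b) + j * (j - 1) := by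
  induction j with
  | zero => simp
  | succ j ih =>
    rw [show 2 * (j + 1) = 2 * j + 1 + 1 by ring, sum_range_succ, sum_range_succ, ih,
      zig_even, zig_odd]
    push_cast; ring

lemma sum_odd (a b : ℤ) (j : ℕ) :
    ∑ i ∈ range (2 * j + 1), zig a b i = j * (a + b) + j * (j - 1) + a + j := by
  rw [sum_range_succ, sum_even, zig_even]; ring

/-- Two zigzags followed by a tail given as a list; beyond the end we return to the start. -/
def XX (a b : ℤ) (p : ℕ) (a' b' : ℤ) (q : ℕ) (l : List ℤ) (i : ℕ) : ℤ :=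
  if i < p then zig a b i else if i < p + q then zig a' b' (i - p) else l.getD (i - (p + q)) a

lemma XX_1 {a b a' b' : ℤ} {p q : ℕ} {l : List ℤ} {i : ℕ} (h : i < p) :
    XX a b p a' b' q l i = zig a b i := by
  unfold XX; rw [if_pos h]

lemma XX_2 {a b a' b' : ℤ} {p q : ℕ} {l : List ℤ} {i : ℕ} (j : ℕ) (h : i = p + j) (hj : j < q) :
    XX a b p a' b' q l i = zig a' b' j := by
  subst h; unfold XX; rw [if_neg (by omega), if_pos (by omega)]; congr 1; omega

lemma XX_3 {a b a' b' : ℤ} {p q : ℕ} {l : List ℤ} {i : ℕ} (j : ℕ) (h : i = p + q + j) :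
    XX a b p a' b' q l i = l.getD j a := by
  subst h; unfold XX; rw [if_neg (by omega), if_neg (by omega)]; congr 1; omega

lemma XX_sum (a b a' b' : ℤ) (p q : ℕ) (l : List ℤ) (r : ℕ) :
    ∑ i ∈ range (p + q + r), XX a b p a' b' q l i =
      ∑ i ∈ range p, zig a b i + ∑ i ∈ range q, zig a' b' i + ∑ i ∈ range r, l.getD i a := by
  rw [sum_range_add, sum_range_add]
  congr 1
  · congr 1
    · exact sum_congr rfl fun i hi => XX_1 (mem_range.1 hi)
    · exact sum_congr rfl fun i hi => XX_2 i rfl (mem_range.1 hi)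
  · exact sum_congr rfl fun i _ => XX_3 i rfl

def XO (n : ℕ) : ℕ → ℤ :=
  XX (2 * n + 9) (4 * n + 16) (2 * n + 1) (0) (0) (0) [2 * n + 7, -(2 * n + 5), -3, -1, 3 * n + 11, 2 * n + 6]

lemma goodO (n : ℕ) : Good (2 * n + 7) (XO n) := by
  have e1 : ∀ i, i < 2 * n + 1 → XO n i = zig (2 * n + 9) (4 * n + 16) i := fun i hi => XX_1 hi
  have e2 : ∀ i j : ℕ, i = 2 * n + 1 + j → j < 0 → XO n i = zig (0) (0) j :=
    fun i j h hj => XX_2 j h hj
  have t0 : ∀ i, i = 2 * n + 1 + (0) + 0 → XO n i = 2 * n + 7 := fun i h => XX_3 0 h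
  have t1 : ∀ i, i = 2 * n + 1 + (0) + 1 → XO n i = -(2 * n + 5) := fun i h => XX_3 1 h
  have t2 : ∀ i, i = 2 * n + 1 + (0) + 2 → XO n i = -3 := fun i h => XX_3 2 h
  have t3 : ∀ i, i = 2 * n + 1 + (0) + 3 → XO n i = -1 := fun i h => XX_3 3 h
  have t4 : ∀ i, i = 2 * n + 1 + (0) + 4 → XO n i = 3 * n + 11 := fun i h => XX_3 4 h
  have t5 : ∀ i, i = 2 * n + 1 + (0) + 5 → XO n i = 2 * n + 6 := fun i h => XX_3 5 h
  have t6 : ∀ i, i = 2 * n + 1 + (0) + 6 → XO n i = 2 * n + 9 := fun i h => XX_3 6 h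
  have a1 : ∀ i j : ℕ, i = 2 * j → i < 2 * n + 1 → XO n i = 2 * n + 9 + j := fun i j h hi => by
    rw [e1 i hi, h, zig_even]
  have b1 : ∀ i j : ℕ, i = 2 * j + 1 → i < 2 * n + 1 → XO n i = 4 * n + 16 + j := fun i j h hi => by
    rw [e1 i hi, h, zig_odd]
  have s1 : ∀ i, i + 1 < 2 * n + 1 → XO n i + XO n (i + 1) = 2 * n + 9 + (4 * n + 16) + i := fun i hi => by
    rw [e1 i (by omega), e1 _ hi, zig_add]
  refine ⟨?_, ?_, ?_, ?_⟩
  · rw [t6 _ (by omega), a1 0 0 rfl (by omega)]; simp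
  · intro i hi
    unfold Nz
    by_cases c : i + 1 < 2 * n + 1
    · have h1 := s1 i c
      rcases Nat.even_or_odd' i with ⟨j, hj | hj⟩
      · have h2 := a1 i j hj (by omega)
        omega
      · have h2 := b1 i j hj (by omega)
        omega
    by_cases c : i + 1 = 2 * n + 1
    · have h1 := a1 i (n) (by omega) (by omega)
      have h2 := t0 (i + 1) (by omega)
      omega
    by_cases c : i = 2 * n + 1 + (0) + 0
    · have h1 := t0 i (by omega)
      have h2 := t1 (i + 1) (by omega)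
      omega
    by_cases c : i = 2 * n + 1 + (0) + 1
    · have h1 := t1 i (by omega)
      have h2 := t2 (i + 1) (by omega)
      omega
    by_cases c : i = 2 * n + 1 + (0) + 2
    · have h1 := t2 i (by omega)
      have h2 := t3 (i + 1) (by omega)
      omega
    by_cases c : i = 2 * n + 1 + (0) + 3
    · have h1 := t3 i (by omega)
      have h2 := t4 (i + 1) (by omega)
      omega
    by_cases c : i = 2 * n + 1 + (0) + 4
    · have h1 := t4 i (by omega)
      have h2 := t5 (i + 1) (by omega)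
      omega
    · have h1 := t5 i (by omega)
      have h2 := t6 (i + 1) (by omega)
      omega
  · intro z h1 h2
    unfold Cg
    by_cases c : z = 1
    · refine ⟨2 * n + 1 + 0 + 3, by omega, Or.inl ?_⟩
      have f0 := t3 (2 * n + 1 + 0 + 3) (by omega)
      omega
    by_cases c : z = 2
    · refine ⟨2 * n + 1 + 0 + 0, by omega, Or.inr ?_⟩
      have f0 := t0 (2 * n + 1 + 0 + 0) (by omega)
      have f1 := t1 (2 * n + 1 + 0 + 0 + 1) (by omega)
      omega
    by_cases c : z = 3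
    · refine ⟨2 * n + 1 + 0 + 2, by omega, Or.inl ?_⟩
      have f0 := t2 (2 * n + 1 + 0 + 2) (by omega)
      omega
    by_cases c : z = 4
    · refine ⟨2 * n + 1 + 0 + 2, by omega, Or.inr ?_⟩
      have f0 := t2 (2 * n + 1 + 0 + 2) (by omega)
      have f1 := t3 (2 * n + 1 + 0 + 2 + 1) (by omega)
      omega
    by_cases c : z ≤ 2 * n + 4
    · refine ⟨2 * n + 4 - z, by omega, Or.inr ?_⟩
      have f0 := s1 (2 * n + 4 - z) (by omega)
      omega
    by_cases c : z = 2 * n + 5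
    · refine ⟨2 * n + 1 + 0 + 1, by omega, Or.inl ?_⟩
      have f0 := t1 (2 * n + 1 + 0 + 1) (by omega)
      omega
    by_cases c : z = 2 * n + 6
    · refine ⟨2 * n + 1 + 0 + 5, by omega, Or.inl ?_⟩
      have f0 := t5 (2 * n + 1 + 0 + 5) (by omega)
      omega
    by_cases c : z = 2 * n + 7
    · refine ⟨2 * n + 1 + 0 + 0, by omega, Or.inl ?_⟩
      have f0 := t0 (2 * n + 1 + 0 + 0) (by omega)
      omega
    by_cases c : z = 2 * n + 8
    · refine ⟨2 * n + 1 + 0 + 1, by omega, Or.inr ?_⟩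
      have f0 := t1 (2 * n + 1 + 0 + 1) (by omega)
      have f1 := t2 (2 * n + 1 + 0 + 1 + 1) (by omega)
      omega
    by_cases c : z ≤ 3 * n + 9
    · refine ⟨2 * (z - (2 * n + 9)), by omega, Or.inl ?_⟩
      have f0 := a1 (2 * (z - (2 * n + 9))) _ rfl (by omega)
      omega
    by_cases c : z = 3 * n + 10
    · refine ⟨2 * n + 1 + 0 + 3, by omega, Or.inr ?_⟩
      have f0 := t3 (2 * n + 1 + 0 + 3) (by omega)
      have f1 := t4 (2 * n + 1 + 0 + 3 + 1) (by omega)
      omega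
    by_cases c : z = 3 * n + 11
    · refine ⟨2 * n + 1 + 0 + 4, by omega, Or.inl ?_⟩
      have f0 := t4 (2 * n + 1 + 0 + 4) (by omega)
      omega
    by_cases c : z = 3 * n + 12
    · refine ⟨2 * n + 1 + 0 + 4, by omega, Or.inr ?_⟩
      have f0 := t4 (2 * n + 1 + 0 + 4) (by omega)
      have f1 := t5 (2 * n + 1 + 0 + 4 + 1) (by omega)
      omega
    by_cases c : z = 3 * n + 13
    · refine ⟨2 * n, by omega, Or.inr ?_⟩
      have f0 := a1 (2 * n) n rfl (by omega)
      have f1 := t0 (2 * n + 1) (by omega)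
      omega
    by_cases c : z ≤ 4 * n + 13
    · refine ⟨2 * (4 * n + 13 - z) + 1, by omega, Or.inl ?_⟩
      have f0 := b1 (2 * (4 * n + 13 - z) + 1) _ rfl (by omega)
      omega
    · refine ⟨2 * n + 1 + 0 + 5, by omega, Or.inr ?_⟩
      have f0 := t5 (2 * n + 1 + 0 + 5) (by omega)
      have f1 := t6 (2 * n + 1 + 0 + 5 + 1) (by omega)
      omega
  · refine ⟨-64, 56 * n + 53, ?_⟩
    unfold XO
    rw [show 2 * n + 7 = 2 * n + 1 + (0) + 6 by ring, XX_sum, sum_odd, sum_range_zero]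
    simp only [sum_range_succ, sum_range_zero, List.getD_cons_succ, List.getD_cons_zero]
    push_cast; ring

def XZ (n : ℕ) : ℕ → ℤ :=
  XX (11 * n + 24) (7 * n + 15) (2 * n + 3) (9 * n + 19) (5 * n + 12) (2 * n + 2) [8 * n + 16, -(2 * n + 3), -1]

lemma goodZ (n : ℕ) : Good (4 * n + 8) (XZ n) := by
  have e1 : ∀ i, i < 2 * n + 3 → XZ n i = zig (11 * n + 24) (7 * n + 15) i := fun i hi => XX_1 hi
  have e2 : ∀ i j : ℕ, i = 2 * n + 3 + j → j < 2 * n + 2 → XZ n i = zig (9 * n + 19) (5 * n + 12) j :=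
    fun i j h hj => XX_2 j h hj
  have t0 : ∀ i, i = 2 * n + 3 + (2 * n + 2) + 0 → XZ n i = 8 * n + 16 := fun i h => XX_3 0 h
  have t1 : ∀ i, i = 2 * n + 3 + (2 * n + 2) + 1 → XZ n i = -(2 * n + 3) := fun i h => XX_3 1 h
  have t2 : ∀ i, i = 2 * n + 3 + (2 * n + 2) + 2 → XZ n i = -1 := fun i h => XX_3 2 h
  have t3 : ∀ i, i = 2 * n + 3 + (2 * n + 2) + 3 → XZ n i = 11 * n + 24 := fun i h => XX_3 3 h
  have a1 : ∀ i j : ℕ, i = 2 * j → i < 2 * n + 3 → XZ n i = 11 * n + 24 + j := fun i j h hi => by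
    rw [e1 i hi, h, zig_even]
  have b1 : ∀ i j : ℕ, i = 2 * j + 1 → i < 2 * n + 3 → XZ n i = 7 * n + 15 + j := fun i j h hi => by
    rw [e1 i hi, h, zig_odd]
  have s1 : ∀ i, i + 1 < 2 * n + 3 → XZ n i + XZ n (i + 1) = 11 * n + 24 + (7 * n + 15) + i := fun i hi => by
    rw [e1 i (by omega), e1 _ hi, zig_add]
  have a2 : ∀ i j : ℕ, i = 2 * n + 3 + 2 * j → 2 * j < 2 * n + 2 → XZ n i = 9 * n + 19 + j :=
    fun i j h hi => by rw [e2 i _ h hi, zig_even]
  have b2 : ∀ i j : ℕ, i = 2 * n + 3 + (2 * j + 1) → 2 * j + 1 < 2 * n + 2 → XZ n i = 5 * n + 12 + j :=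
    fun i j h hi => by rw [e2 i _ h hi, zig_odd]
  have s2 : ∀ i j : ℕ, i = 2 * n + 3 + j → j + 1 < 2 * n + 2 → XZ n i + XZ n (i + 1) = 9 * n + 19 + (5 * n + 12) + j :=
    fun i j h hi => by rw [e2 i j h (by omega), e2 (i + 1) (j + 1) (by omega) hi, zig_add]
  refine ⟨?_, ?_, ?_, ?_⟩
  · rw [t3 _ (by omega), a1 0 0 rfl (by omega)]; simp
  · intro i hi
    unfold Nz
    by_cases c : i + 1 < 2 * n + 3
    · have h1 := s1 i c
      rcases Nat.even_or_odd' i with ⟨j, hj | hj⟩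
      · have h2 := a1 i j hj (by omega)
        omega
      · have h2 := b1 i j hj (by omega)
        omega
    by_cases c : i + 1 = 2 * n + 3
    · have h1 := a1 i (n + 1) (by omega) (by omega)
      have h2 := a2 (i + 1) 0 (by omega) (by omega)
      omega
    by_cases c : i + 1 < 2 * n + 3 + (2 * n + 2)
    · have h1 := s2 i (i - (2 * n + 3)) (by omega) (by omega)
      rcases Nat.even_or_odd' (i - (2 * n + 3)) with ⟨j, hj | hj⟩
      · have h2 := a2 i j (by omega) (by omega)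
        omega
      · have h2 := b2 i j (by omega) (by omega)
        omega
    by_cases c : i + 1 = 2 * n + 3 + (2 * n + 2)
    · have h1 := b2 i (n) (by omega) (by omega)
      have h2 := t0 (i + 1) (by omega)
      omega
    by_cases c : i = 2 * n + 3 + (2 * n + 2) + 0
    · have h1 := t0 i (by omega)
      have h2 := t1 (i + 1) (by omega)
      omega
    by_cases c : i = 2 * n + 3 + (2 * n + 2) + 1
    · have h1 := t1 i (by omega)
      have h2 := t2 (i + 1) (by omega)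
      omega
    · have h1 := t2 i (by omega)
      have h2 := t3 (i + 1) (by omega)
      omega
  · intro z h1 h2
    unfold Cg
    by_cases c : z = 1
    · refine ⟨2 * n + 3 + (2 * n + 2) + 2, by omega, Or.inl ?_⟩
      have f0 := t2 (2 * n + 3 + (2 * n + 2) + 2) (by omega)
      omega
    by_cases c : z ≤ 2 * n + 2
    · refine ⟨2 * n + 3 + (2 * n + 2 - z), by omega, Or.inr ?_⟩
      have f0 := s2 (2 * n + 3 + (2 * n + 2 - z)) _ rfl (by omega)
      omega
    by_cases c : z = 2 * n + 3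
    · refine ⟨2 * n + 3 + (2 * n + 2) + 1, by omega, Or.inl ?_⟩
      have f0 := t1 (2 * n + 3 + (2 * n + 2) + 1) (by omega)
      omega
    by_cases c : z = 2 * n + 4
    · refine ⟨2 * n + 3 + (2 * n + 2) + 1, by omega, Or.inr ?_⟩
      have f0 := t1 (2 * n + 3 + (2 * n + 2) + 1) (by omega)
      have f1 := t2 (2 * n + 3 + (2 * n + 2) + 1 + 1) (by omega)
      omega
    by_cases c : z = 2 * n + 5
    · refine ⟨4 * n + 4, by omega, Or.inr ?_⟩
      have f0 := b2 (4 * n + 4) n (by omega) (by omega)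
      have f1 := t0 (4 * n + 4 + 1) (by omega)
      omega
    by_cases c : z ≤ 4 * n + 7
    · refine ⟨z - (2 * n + 6), by omega, Or.inr ?_⟩
      have f0 := s1 (z - (2 * n + 6)) (by omega)
      omega
    by_cases c : z ≤ 5 * n + 9
    · refine ⟨2 * (5 * n + 9 - z), by omega, Or.inl ?_⟩
      have f0 := a1 (2 * (5 * n + 9 - z)) _ rfl (by omega)
      omega
    by_cases c : z = 5 * n + 10
    · refine ⟨2 * n + 3 + (2 * n + 2) + 2, by omega, Or.inr ?_⟩
      have f0 := t2 (2 * n + 3 + (2 * n + 2) + 2) (by omega)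
      have f1 := t3 (2 * n + 3 + (2 * n + 2) + 2 + 1) (by omega)
      omega
    by_cases c : z = 5 * n + 11
    · refine ⟨2 * n + 2, by omega, Or.inr ?_⟩
      have f0 := a1 (2 * n + 2) (n + 1) (by omega) (by omega)
      have f1 := a2 (2 * n + 2 + 1) 0 (by omega) (by omega)
      omega
    by_cases c : z ≤ 6 * n + 12
    · refine ⟨2 * n + 3 + (2 * (z - (5 * n + 12)) + 1), by omega, Or.inl ?_⟩
      have f0 := b2 (2 * n + 3 + (2 * (z - (5 * n + 12)) + 1)) _ rfl (by omega)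
      omega
    by_cases c : z = 6 * n + 13
    · refine ⟨2 * n + 3 + (2 * n + 2) + 0, by omega, Or.inr ?_⟩
      have f0 := t0 (2 * n + 3 + (2 * n + 2) + 0) (by omega)
      have f1 := t1 (2 * n + 3 + (2 * n + 2) + 0 + 1) (by omega)
      omega
    by_cases c : z ≤ 7 * n + 14
    · refine ⟨2 * n + 3 + 2 * (7 * n + 14 - z), by omega, Or.inl ?_⟩
      have f0 := a2 (2 * n + 3 + 2 * (7 * n + 14 - z)) _ rfl (by omega)
      omega
    by_cases c : z ≤ 8 * n + 15
    · refine ⟨2 * (z - (7 * n + 15)) + 1, by omega, Or.inl ?_⟩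
      have f0 := b1 (2 * (z - (7 * n + 15)) + 1) _ rfl (by omega)
      omega
    · refine ⟨2 * n + 3 + (2 * n + 2) + 0, by omega, Or.inl ?_⟩
      have f0 := t0 (2 * n + 3 + (2 * n + 2) + 0) (by omega)
      omega
  · refine ⟨128, -(272 * n + 415), ?_⟩
    unfold XZ
    rw [show 4 * n + 8 = 2 * n + 3 + (2 * n + 2) + 3 by ring, XX_sum, show 2 * n + 3 = 2 * (n + 1) + 1 by ring, sum_odd, show 2 * n + 2 = 2 * (n + 1) by ring, sum_even]
    simp only [sum_range_succ, sum_range_zero, List.getD_cons_succ, List.getD_cons_zero]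
    push_cast; ring

def XT (n : ℕ) : ℕ → ℤ :=
  XX (7 * n + 12) (11 * n + 18) (2 * n + 2) (9 * n + 15) (5 * n + 9) (2 * n + 1) [-(4 * n + 6), 2 * n + 4, -1]

lemma goodT (n : ℕ) : Good (4 * n + 6) (XT n) := by
  have e1 : ∀ i, i < 2 * n + 2 → XT n i = zig (7 * n + 12) (11 * n + 18) i := fun i hi => XX_1 hi
  have e2 : ∀ i j : ℕ, i = 2 * n + 2 + j → j < 2 * n + 1 → XT n i = zig (9 * n + 15) (5 * n + 9) j :=
    fun i j h hj => XX_2 j h hj
  have t0 : ∀ i, i = 2 * n + 2 + (2 * n + 1) + 0 → XT n i = -(4 * n + 6) := fun i h => XX_3 0 h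
  have t1 : ∀ i, i = 2 * n + 2 + (2 * n + 1) + 1 → XT n i = 2 * n + 4 := fun i h => XX_3 1 h
  have t2 : ∀ i, i = 2 * n + 2 + (2 * n + 1) + 2 → XT n i = -1 := fun i h => XX_3 2 h
  have t3 : ∀ i, i = 2 * n + 2 + (2 * n + 1) + 3 → XT n i = 7 * n + 12 := fun i h => XX_3 3 h
  have a1 : ∀ i j : ℕ, i = 2 * j → i < 2 * n + 2 → XT n i = 7 * n + 12 + j := fun i j h hi => by
    rw [e1 i hi, h, zig_even]
  have b1 : ∀ i j : ℕ, i = 2 * j + 1 → i < 2 * n + 2 → XT n i = 11 * n + 18 + j := fun i j h hi => by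
    rw [e1 i hi, h, zig_odd]
  have s1 : ∀ i, i + 1 < 2 * n + 2 → XT n i + XT n (i + 1) = 7 * n + 12 + (11 * n + 18) + i := fun i hi => by
    rw [e1 i (by omega), e1 _ hi, zig_add]
  have a2 : ∀ i j : ℕ, i = 2 * n + 2 + 2 * j → 2 * j < 2 * n + 1 → XT n i = 9 * n + 15 + j :=
    fun i j h hi => by rw [e2 i _ h hi, zig_even]
  have b2 : ∀ i j : ℕ, i = 2 * n + 2 + (2 * j + 1) → 2 * j + 1 < 2 * n + 1 → XT n i = 5 * n + 9 + j :=
    fun i j h hi => by rw [e2 i _ h hi, zig_odd]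
  have s2 : ∀ i j : ℕ, i = 2 * n + 2 + j → j + 1 < 2 * n + 1 → XT n i + XT n (i + 1) = 9 * n + 15 + (5 * n + 9) + j :=
    fun i j h hi => by rw [e2 i j h (by omega), e2 (i + 1) (j + 1) (by omega) hi, zig_add]
  refine ⟨?_, ?_, ?_, ?_⟩
  · rw [t3 _ (by omega), a1 0 0 rfl (by omega)]; simp
  · intro i hi
    unfold Nz
    by_cases c : i + 1 < 2 * n + 2
    · have h1 := s1 i c
      rcases Nat.even_or_odd' i with ⟨j, hj | hj⟩
      · have h2 := a1 i j hj (by omega)
        omega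
      · have h2 := b1 i j hj (by omega)
        omega
    by_cases c : i + 1 = 2 * n + 2
    · have h1 := b1 i (n) (by omega) (by omega)
      have h2 := a2 (i + 1) 0 (by omega) (by omega)
      omega
    by_cases c : i + 1 < 2 * n + 2 + (2 * n + 1)
    · have h1 := s2 i (i - (2 * n + 2)) (by omega) (by omega)
      rcases Nat.even_or_odd' (i - (2 * n + 2)) with ⟨j, hj | hj⟩
      · have h2 := a2 i j (by omega) (by omega)
        omega
      · have h2 := b2 i j (by omega) (by omega)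
        omega
    by_cases c : i + 1 = 2 * n + 2 + (2 * n + 1)
    · have h1 := a2 i (n) (by omega) (by omega)
      have h2 := t0 (i + 1) (by omega)
      omega
    by_cases c : i = 2 * n + 2 + (2 * n + 1) + 0
    · have h1 := t0 i (by omega)
      have h2 := t1 (i + 1) (by omega)
      omega
    by_cases c : i = 2 * n + 2 + (2 * n + 1) + 1
    · have h1 := t1 i (by omega)
      have h2 := t2 (i + 1) (by omega)
      omega
    · have h1 := t2 i (by omega)
      have h2 := t3 (i + 1) (by omega)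
      omega
  · intro z h1 h2
    unfold Cg
    by_cases c : z = 1
    · refine ⟨2 * n + 2 + (2 * n + 1) + 2, by omega, Or.inl ?_⟩
      have f0 := t2 (2 * n + 2 + (2 * n + 1) + 2) (by omega)
      omega
    by_cases c : z ≤ 2 * n + 1
    · refine ⟨2 * n + 2 + (2 * n + 1 - z), by omega, Or.inr ?_⟩
      have f0 := s2 (2 * n + 2 + (2 * n + 1 - z)) _ rfl (by omega)
      omega
    by_cases c : z = 2 * n + 2
    · refine ⟨2 * n + 2 + (2 * n + 1) + 0, by omega, Or.inr ?_⟩
      have f0 := t0 (2 * n + 2 + (2 * n + 1) + 0) (by omega)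
      have f1 := t1 (2 * n + 2 + (2 * n + 1) + 0 + 1) (by omega)
      omega
    by_cases c : z = 2 * n + 3
    · refine ⟨2 * n + 2 + (2 * n + 1) + 1, by omega, Or.inr ?_⟩
      have f0 := t1 (2 * n + 2 + (2 * n + 1) + 1) (by omega)
      have f1 := t2 (2 * n + 2 + (2 * n + 1) + 1 + 1) (by omega)
      omega
    by_cases c : z = 2 * n + 4
    · refine ⟨2 * n + 2 + (2 * n + 1) + 1, by omega, Or.inl ?_⟩
      have f0 := t1 (2 * n + 2 + (2 * n + 1) + 1) (by omega)
      omega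
    by_cases c : z ≤ 4 * n + 5
    · refine ⟨z - (2 * n + 5), by omega, Or.inr ?_⟩
      have f0 := s1 (z - (2 * n + 5)) (by omega)
      omega
    by_cases c : z = 4 * n + 6
    · refine ⟨2 * n + 2 + (2 * n + 1) + 0, by omega, Or.inl ?_⟩
      have f0 := t0 (2 * n + 2 + (2 * n + 1) + 0) (by omega)
      omega
    by_cases c : z ≤ 5 * n + 7
    · refine ⟨2 * (5 * n + 7 - z) + 1, by omega, Or.inl ?_⟩
      have f0 := b1 (2 * (5 * n + 7 - z) + 1) _ rfl (by omega)
      omega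
    by_cases c : z = 5 * n + 8
    · refine ⟨2 * n + 1, by omega, Or.inr ?_⟩
      have f0 := b1 (2 * n + 1) n (by omega) (by omega)
      have f1 := a2 (2 * n + 1 + 1) 0 (by omega) (by omega)
      omega
    by_cases c : z ≤ 6 * n + 8
    · refine ⟨2 * n + 2 + (2 * (z - (5 * n + 9)) + 1), by omega, Or.inl ?_⟩
      have f0 := b2 (2 * n + 2 + (2 * (z - (5 * n + 9)) + 1)) _ rfl (by omega)
      omega
    by_cases c : z = 6 * n + 9
    · refine ⟨4 * n + 2, by omega, Or.inr ?_⟩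
      have f0 := a2 (4 * n + 2) n (by omega) (by omega)
      have f1 := t0 (4 * n + 2 + 1) (by omega)
      omega
    by_cases c : z ≤ 7 * n + 10
    · refine ⟨2 * n + 2 + 2 * (7 * n + 10 - z), by omega, Or.inl ?_⟩
      have f0 := a2 (2 * n + 2 + 2 * (7 * n + 10 - z)) _ rfl (by omega)
      omega
    by_cases c : z = 7 * n + 11
    · refine ⟨2 * n + 2 + (2 * n + 1) + 2, by omega, Or.inr ?_⟩
      have f0 := t2 (2 * n + 2 + (2 * n + 1) + 2) (by omega)
      have f1 := t3 (2 * n + 2 + (2 * n + 1) + 2 + 1) (by omega)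
      omega
    · refine ⟨2 * (z - (7 * n + 12)), by omega, Or.inl ?_⟩
      have f0 := a1 (2 * (z - (7 * n + 12))) _ rfl (by omega)
      omega
  · refine ⟨128, -(272 * n + 215), ?_⟩
    unfold XT
    rw [show 4 * n + 6 = 2 * n + 2 + (2 * n + 1) + 3 by ring, XX_sum, show 2 * n + 2 = 2 * (n + 1) by ring, sum_even, sum_odd]
    simp only [sum_range_succ, sum_range_zero, List.getD_cons_succ, List.getD_cons_zero]
    push_cast; ring

end Pool.Agent.H.MP_a9ea17_co
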